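import Pool.Agent.helper47.MSW.SpecA

set_option autoImplicit false

namespace Pool.Agent.MSW

open Equiv Finset Function MeasureTheory Pool.Agent.helper48.PP
open Pool.Agent.DSW (Pr Has GP wt)
open scoped ENNReal Classical

noncomputable section

/-- the cells for the sets `I` of columns and `J` of rows -/
def CNT_cells {k : ℕ} (τ : Perm (Fin k)) (z : Finset ℕ × Finset ℕ) : Finset Pt :=
  if h : z.1.card = k ∧ z.2.card = k then
    Finset.univ.image fun j => (z.1.orderEmbOfFin h.1 j, z.2.orderEmbOfFin h.2 (τ j))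
  else ∅

theorem CNT_card {k : ℕ} (τ : Perm (Fin k)) (z : Finset ℕ × Finset ℕ)
    (h : z.1.card = k ∧ z.2.card = k) : (CNT_cells τ z).card = k := by
  unfold CNT_cells
  rw [dif_pos h, Finset.card_image_of_injective, Finset.card_univ, Fintype.card_fin]
  intro i j hij
  exact (z.1.orderEmbOfFin h.1).injective (Prod.ext_iff.1 hij).1

theorem CNT_mem {k : ℕ} (τ : Perm (Fin k)) (w : Pt) (ω : Om) (h : HP τ ω 0 w) :
    ∃ z ∈ Finset.powersetCard k (Finset.range w.1) ×ˢ Finset.powersetCard k (Finset.range w.2),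
      ∀ c ∈ CNT_cells τ z, ω c = true := by
  obtain ⟨-, x, y, hx, hy, hxy⟩ := h
  have hI : (Finset.univ.image x).card = k := by
    rw [Finset.card_image_of_injective _ hx.injective, Finset.card_univ, Fintype.card_fin]
  have hJ : (Finset.univ.image y).card = k := by
    rw [Finset.card_image_of_injective _ hy.injective, Finset.card_univ, Fintype.card_fin]
  refine ⟨(Finset.univ.image x, Finset.univ.image y), ?_, ?_⟩
  · rw [Finset.mem_product, Finset.mem_powersetCard, Finset.mem_powersetCard]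
    refine ⟨⟨?_, hI⟩, ?_, hJ⟩
    · intro a ha
      obtain ⟨j, -, rfl⟩ := Finset.mem_image.1 ha
      exact Finset.mem_range.2 (hxy j).2.1.2
    · intro a ha
      obtain ⟨j, -, rfl⟩ := Finset.mem_image.1 ha
      exact Finset.mem_range.2 (hxy j).2.2.2
  · intro c hc
    unfold CNT_cells at hc
    rw [dif_pos ⟨hI, hJ⟩] at hc
    obtain ⟨j, -, rfl⟩ := Finset.mem_image.1 hc
    have e1 : x = (Finset.univ.image x).orderEmbOfFin hI :=
      Finset.orderEmbOfFin_unique hI (fun i => Finset.mem_image_of_mem _ (Finset.mem_univ i)) hx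
    have e2 : y = (Finset.univ.image y).orderEmbOfFin hJ :=
      Finset.orderEmbOfFin_unique hJ (fun i => Finset.mem_image_of_mem _ (Finset.mem_univ i)) hy
    have h1 := (hxy j).1
    have e3 : ((Finset.univ.image x).orderEmbOfFin hI) j = x j := (congrFun e1 j).symm
    have e4 : ((Finset.univ.image y).orderEmbOfFin hJ) (τ j) = y (τ j) := (congrFun e2 (τ j)).symm
    simp only
    rw [e3, e4]
    exact h1

theorem CNT (hHLA : HLA_stmt) (hONE : ONE_stmt) : CNT_stmt := by
  intro k τ w p hp0 hp1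
  have _ := hHLA
  set Idx := Finset.powersetCard k (Finset.range w.1) ×ˢ
    Finset.powersetCard k (Finset.range w.2) with hIdx
  have hsub : {ω : Om | HP τ ω 0 w} ⊆ ⋃ z ∈ Idx, {ω : Om | ∀ c ∈ CNT_cells τ z, ω c = true} := by
    intro ω hω
    obtain ⟨z, hz, hc⟩ := CNT_mem τ w ω hω
    exact Set.mem_biUnion hz hc
  have hcardz : ∀ z ∈ Idx, z.1.card = k ∧ z.2.card = k := by
    intro z hz
    rw [hIdx, Finset.mem_product, Finset.mem_powersetCard, Finset.mem_powersetCard] at hz
    exact ⟨hz.1.2, hz.2.2⟩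
  calc Pm p {ω : Om | HP τ ω 0 w}
      ≤ Pm p (⋃ z ∈ Idx, {ω : Om | ∀ c ∈ CNT_cells τ z, ω c = true}) := measure_mono hsub
    _ ≤ ∑ z ∈ Idx, Pm p {ω : Om | ∀ c ∈ CNT_cells τ z, ω c = true} :=
        measure_biUnion_finset_le _ _
    _ = ∑ z ∈ Idx, ENNReal.ofReal p ^ k := by
        refine Finset.sum_congr rfl fun z hz => ?_
        rw [hONE p (CNT_cells τ z) hp0 hp1, CNT_card τ z (hcardz z hz)]
    _ = ENNReal.ofReal p ^ k * (w.1.choose k : ℝ≥0∞) * (w.2.choose k : ℝ≥0∞) := by
        rw [Finset.sum_const, hIdx, Finset.card_product, Finset.card_powersetCard,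
          Finset.card_powersetCard, Finset.card_range, Finset.card_range, nsmul_eq_mul,
          Nat.cast_mul]
        ring

end

end Pool.Agent.MSW
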